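import Pool.Agent.V5helper46.GP.Stm2
import Pool.Agent.Y776.AxJ.Nome

/-!
# Project GP, job AI, analytic part: the functions at `R(x)` and the Ax-Schanuel theorem
-/

set_option autoImplicit false

open Filter Topology

namespace Pool.Agent.V5helper48.GP

noncomputable section

open Pool.Agent.Y685 (LL LC clo subset_clo base_clo)
open Pool.Agent.Y776 (jf)
open Pool.Agent.Y776.AxJ (Fmj yj b4 Nj)
open Pool.Agent.TH21.MS (jj E4 E6 E4_eq E6_eq)
open Pool.Agent.Y120.J (evc tpi FF GG F1 si)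
open Pool.Agent.Y120.K (xs Ys ry hh Js z1 Yx hray hcur)

/-! ### the two forms of the modular invariant -/

section jfun

open UpperHalfPlane ModularForm EisensteinSeries

theorem G_eq {k : ℕ} (hk : 3 ≤ k) (z : ℍ) : (LL z).G k = ∑' v, eisSummand k v z := by
  have h0 : (LL z).G k = ∑' x : ℤ × ℤ, ((((LL z).latticeEquivProd.symm x : (LL z).lattice) : ℂ) ^ k)⁻¹ := by
    unfold PeriodPair.G
    exact ((LL z).latticeEquivProd.symm.toEquiv.tsum_eq (fun l : (LL z).lattice => ((l : ℂ) ^ k)⁻¹)).symm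
  rw [h0, ← ((finTwoArrowEquiv ℤ).trans (Equiv.prodComm ℤ ℤ)).tsum_eq]
  refine tsum_congr fun v => ?_
  have h1 : ((finTwoArrowEquiv ℤ).trans (Equiv.prodComm ℤ ℤ)) v = (v 1, v 0) := rfl
  rw [PeriodPair.latticeEquiv_symm_apply, eisSummand, h1, Pool.Agent.Y685.LL_ω₁, Pool.Agent.Y685.LL_ω₂, mul_one,
    zpow_neg, zpow_natCast, add_comm]

theorem G_E {k : ℕ} (hk : 3 ≤ k) (z : ℍ) : (LL z).G k = 2 * riemannZeta k * E hk z := by
  rw [G_eq hk, tsum_eisSummand_eq_riemannZeta_mul_eisensteinSeries hk z,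
    show E hk z = (1 / 2 : ℂ) • eisensteinSeriesSIF (N := 1) 0 k z from rfl, eisensteinSeriesSIF_apply 0 k z]
  simp only [smul_eq_mul]
  ring

theorem zeta_six : riemannZeta 6 = (Real.pi : ℂ) ^ 6 / 945 := by
  have h := riemannZeta_two_mul_nat (k := 3) (by norm_num)
  have h1 : (2 * ((3 : ℕ) : ℂ)) = 6 := by norm_num
  rw [h1, show 2 * 3 = 6 by norm_num, show bernoulli 6 = 1 / 42 by decide +kernel] at h
  rw [h]
  norm_num [Nat.factorial]
  ring

theorem g2_eq {τ : ℂ} (hτ : 0 < τ.im) : (LC τ).g₂ = 4 * (Real.pi : ℂ) ^ 4 / 3 * E4 τ := by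
  have h1 : LC τ = LL ⟨τ, hτ⟩ := Pool.Agent.Y685.LC_coe ⟨τ, hτ⟩
  have h2 := E4_eq ⟨τ, hτ⟩
  have h3 : ((⟨τ, hτ⟩ : ℍ) : ℂ) = τ := rfl
  rw [h3] at h2
  rw [h1, PeriodPair.g₂, G_E (k := 4) (by norm_num), h2]
  have h4 : riemannZeta ((4 : ℕ) : ℂ) = (Real.pi : ℂ) ^ 4 / 90 := by
    push_cast
    exact riemannZeta_four
  rw [h4, show (E₄ (⟨τ, hτ⟩ : ℍ) : ℂ) = E (k := 4) (by norm_num) ⟨τ, hτ⟩ from rfl]
  ring

theorem g3_eq {τ : ℂ} (hτ : 0 < τ.im) : (LC τ).g₃ = 8 * (Real.pi : ℂ) ^ 6 / 27 * E6 τ := by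
  have h1 : LC τ = LL ⟨τ, hτ⟩ := Pool.Agent.Y685.LC_coe ⟨τ, hτ⟩
  have h2 := E6_eq ⟨τ, hτ⟩
  have h3 : ((⟨τ, hτ⟩ : ℍ) : ℂ) = τ := rfl
  rw [h3] at h2
  rw [h1, PeriodPair.g₃, G_E (k := 6) (by norm_num), h2]
  have h4 : riemannZeta ((6 : ℕ) : ℂ) = (Real.pi : ℂ) ^ 6 / 945 := by
    push_cast
    exact zeta_six
  rw [h4, show (E₆ (⟨τ, hτ⟩ : ℍ) : ℂ) = E (k := 6) (by norm_num) ⟨τ, hτ⟩ from rfl]
  ring

end jfun

theorem jf_jj {τ : ℂ} (hτ : 0 < τ.im) : jf τ = jj τ := by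
  have hpi : (Real.pi : ℂ) ≠ 0 := by exact_mod_cast Real.pi_ne_zero
  have hk : 64 / 27 * (Real.pi : ℂ) ^ 12 ≠ 0 := mul_ne_zero (by norm_num) (pow_ne_zero _ hpi)
  have h1 : 1728 * (LC τ).g₂ ^ 3 = 64 / 27 * (Real.pi : ℂ) ^ 12 * (1728 * E4 τ ^ 3) := by
    rw [g2_eq hτ]
    ring
  have h2 : (LC τ).g₂ ^ 3 - 27 * (LC τ).g₃ ^ 2 = 64 / 27 * (Real.pi : ℂ) ^ 12 * (E4 τ ^ 3 - E6 τ ^ 2) := by
    rw [g2_eq hτ, g3_eq hτ]
    ring
  rw [jf, h1, h2, mul_div_mul_left _ _ hk, jj]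

theorem jf_ev {τ : ℂ} (hτ : 0 < τ.im) : jf =ᶠ[𝓝 τ] jj := by
  filter_upwards [Pool.Agent.Y776.AxJ.isOpen_H.mem_nhds hτ] with z hz using jf_jj hz

theorem djf {τ : ℂ} (hτ : 0 < τ.im) : deriv jf τ = deriv jj τ := (jf_ev hτ).deriv_eq

theorem ddjf {τ : ℂ} (hτ : 0 < τ.im) : deriv (deriv jf) τ = deriv (deriv jj) τ := (jf_ev hτ).deriv.deriv_eq

/-! ### tools -/

/-- analytic local inverse -/
theorem local_inverse {G : ℂ → ℂ} {z₀ : ℂ} (hG : AnalyticAt ℂ G z₀) (hd0 : deriv G z₀ ≠ 0) :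
    ∃ ψ : ℂ → ℂ, AnalyticAt ℂ ψ (G z₀) ∧ ψ (G z₀) = z₀ ∧ ∀ᶠ w in 𝓝 (G z₀), G (ψ w) = w := by
  have hd : HasDerivAt G (deriv G z₀) z₀ := hG.differentiableAt.hasDerivAt
  have h1 : ContDiffAt ℂ 1 G z₀ := hG.contDiffAt
  set e : ℂ ≃L[ℂ] ℂ := ContinuousLinearEquiv.unitsEquivAut ℂ (Units.mk0 (deriv G z₀) hd0) with he
  have h2 : HasFDerivAt G (e : ℂ →L[ℂ] ℂ) z₀ := hd.hasFDerivAt_equiv hd0
  refine ⟨h1.localInverse h2 one_ne_zero, ?_, h1.localInverse_apply_image h2 one_ne_zero,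
    (h1.hasStrictFDerivAt' h2 one_ne_zero).eventually_right_inverse⟩
  have h3 := h1.to_localInverse h2 one_ne_zero
  have h4 : ∀ᶠ x in 𝓝 (G z₀), ContDiffAt ℂ 1 (h1.localInverse h2 one_ne_zero) x :=
    h3.eventually (by simp)
  rw [Complex.analyticAt_iff_eventually_differentiableAt]
  filter_upwards [h4] with x hx
  exact hx.differentiableAt one_ne_zero

/-- subfamilies of independent families -/
theorem loc_comp {κ κ' : Type} {y : κ → ℂ → ℂ} (e : κ' → κ) (he : Function.Injective e) {t : ℂ}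
    (h : Pool.Agent.Y124.LocInd y t) : Pool.Agent.Y124.LocInd (fun k => y (e k)) t := by
  intro P hP
  have h2 : ∀ᶠ t in 𝓝 t, MvPolynomial.eval (fun o : Option κ => o.elim t
      fun k => y k t) (MvPolynomial.rename (Option.map e) P) = 0 := by
    filter_upwards [hP] with t ht
    rw [MvPolynomial.eval_rename]
    rw [← ht]
    congr 2
    funext o
    rcases o with _ | k <;> rfl
  have h3 := h _ h2
  exact (MvPolynomial.rename_injective _ (Option.map_injective he)) (by rw [h3, map_zero])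

/-! ### the functions -/

/-- `R (x) = c x ^ d / p (x)` -/
def Rc (c d : ℕ) (p : Polynomial ℤ) (x : ℂ) : ℂ := c * x ^ d / Polynomial.aeval x p

/-- `F (R (x))`, `θF (R (x))`, `-(G (R (x)) - F (R (x)) log (p (x) / p (0)))` -/
def yk (c d : ℕ) (p : Polynomial ℤ) : Fin 3 → ℂ → ℂ :=
  ![fun x => evc FF (Rc c d p x), fun x => evc F1 (Rc c d p x),
    fun x => -(evc GG (Rc c d p x) - evc FF (Rc c d p x) * Complex.log (Polynomial.aeval x p / ((p.coeff 0 : ℤ) : ℂ)))]

/-- with the variable and the logarithm -/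
def yo (c d : ℕ) (p : Polynomial ℤ) : Option (Fin 4) → ℂ → ℂ := fun o =>
  o.elim (fun x => x) (Fin.snoc (yk c d p) Complex.log : Fin 4 → ℂ → ℂ)

lemma pan (p : Polynomial ℤ) (z : ℂ) : AnalyticAt ℂ (fun x : ℂ => Polynomial.aeval x p) z :=
  (Polynomial.differentiable_aeval p).analyticAt z

lemma aeval_mem {K : IntermediateField ℚ ℂ} {z : ℂ} (hz : z ∈ K) (p : Polynomial ℤ) : Polynomial.aeval z p ∈ K := by
  rw [Polynomial.aeval_eq_sum_range]
  exact sum_mem fun i _ => zsmul_mem (pow_mem hz i) _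

/-- the real part of the construction: a small real point and a point of the upper half-plane -/
lemma exists_point {c d : ℕ} {p : Polynomial ℤ} (hc : 1 ≤ c) (hd : 1 ≤ d) (hp : p.coeff 0 ≠ 0) {ρ δ : ℝ} (hρ : 0 < ρ)
    (hδ : 0 < δ) (Y : ℝ) : ∃ (x₀ : ℝ) (z₀ : ℂ), 0 < x₀ ∧ x₀ < ρ ∧
      0 < Polynomial.aeval x₀ p / ((p.coeff 0 : ℤ) : ℝ) ∧ |(c : ℝ) * x₀ ^ d / Polynomial.aeval x₀ p| < δ ∧ Y < z₀.im ∧
      jj z₀ = 1 / (((c : ℝ) * x₀ ^ d / Polynomial.aeval x₀ p : ℝ) : ℂ) := by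
  classical
  set p0 : ℝ := ((p.coeff 0 : ℤ) : ℝ) with hp0
  have hp0' : p0 ≠ 0 := by rw [hp0]; exact_mod_cast hp
  have hcr : (0 : ℝ) < c := by exact_mod_cast hc
  have hval0 : Polynomial.aeval (0 : ℝ) p = p0 := by
    rw [← Polynomial.coeff_zero_eq_aeval_zero']
    rfl
  obtain ⟨s, hs⟩ : ∃ s : Bool, s = true ↔ 0 < p.coeff 0 := ⟨decide (0 < p.coeff 0), by simp⟩
  have hsi : ((si s : ℤ) : ℝ) * |p0| = p0 := by
    cases s
    · have h : ¬ 0 < p.coeff 0 := fun h => Bool.false_ne_true (hs.2 h)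
      have h' : p0 < 0 := by
        rw [hp0]
        exact_mod_cast lt_of_le_of_ne (not_lt.1 h) hp
      rw [abs_of_neg h']
      simp [si]
    · have h' : 0 < p0 := by
        rw [hp0]
        exact_mod_cast hs.1 rfl
      rw [abs_of_pos h']
      simp [si]
  obtain ⟨hry1, hry2, hry3, hry4, hry5⟩ := hray s
  have hJs : 0 ≤ Js s := by unfold Js; split_ifs <;> norm_num
  set M : ℝ := max (hh s (max Y (Ys s) + 1)) (Js s) with hM
  have hM0 : 0 ≤ M := hJs.trans (le_max_right _ _)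
  have hcont : ContinuousAt (fun x : ℝ => (Polynomial.aeval x p : ℝ)) 0 :=
    (Polynomial.differentiable_aeval p).continuous.continuousAt
  have e1 : ∀ᶠ x in 𝓝 (0 : ℝ), x < ρ := eventually_lt_nhds hρ
  have e2 : ∀ᶠ x in 𝓝 (0 : ℝ), 0 < Polynomial.aeval x p / p0 := by
    have h1 : ContinuousAt (fun x : ℝ => (Polynomial.aeval x p : ℝ) / p0) 0 := hcont.div_const _
    refine h1.eventually_const_lt ?_
    show 0 < Polynomial.aeval (0 : ℝ) p / p0
    rw [hval0, div_self hp0']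
    exact one_pos
  have e3 : ∀ᶠ x in 𝓝 (0 : ℝ), |(c : ℝ) * x ^ d / Polynomial.aeval x p| < min δ (1 / (M + 1)) := by
    have h1 : ContinuousAt (fun x : ℝ => |(c : ℝ) * x ^ d / Polynomial.aeval x p|) 0 := by
      refine ContinuousAt.abs (ContinuousAt.div (by fun_prop) hcont ?_)
      rw [hval0]
      exact hp0'
    refine h1.eventually_lt_const ?_
    show |(c : ℝ) * 0 ^ d / Polynomial.aeval 0 p| < _
    rw [zero_pow (by omega), mul_zero, zero_div, abs_zero]
    exact lt_min hδ (by positivity)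
  obtain ⟨x₀, hx0, h1, h2, h3⟩ : ∃ x : ℝ, 0 < x ∧ x < ρ ∧ 0 < Polynomial.aeval x p / p0 ∧
      |(c : ℝ) * x ^ d / Polynomial.aeval x p| < min δ (1 / (M + 1)) := by
    have h4 : ∀ᶠ x in 𝓝[>] (0 : ℝ), 0 < x := self_mem_nhdsWithin
    exact (h4.and ((e1.and (e2.and e3)).filter_mono nhdsWithin_le_nhds)).exists
  set R : ℝ := (c : ℝ) * x₀ ^ d / Polynomial.aeval x₀ p with hR
  have hp1 : (Polynomial.aeval x₀ p : ℝ) ≠ 0 := by
    intro h
    rw [h, zero_div] at h2
    exact lt_irrefl _ h2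
  have hR0 : R ≠ 0 := div_ne_zero (by positivity) hp1
  have hRabs : 0 < |R| := abs_pos.2 hR0
  have hh0 : M + 1 < |1 / R| := by
    rw [abs_div, abs_one, lt_div_iff₀ hRabs]
    have h5 := lt_of_lt_of_le h3 (min_le_right _ _)
    rw [lt_div_iff₀ (by positivity)] at h5
    linarith
  -- the sign
  have hsign : 1 / R = ((si s : ℤ) : ℝ) * |1 / R| := by
    have h5 : R = (c * x₀ ^ d / (Polynomial.aeval x₀ p / p0)) * (1 / p0) := by
      rw [hR]
      field_simp
    have h6 : 0 < c * x₀ ^ d / (Polynomial.aeval x₀ p / p0) := by positivity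
    set w : ℝ := c * x₀ ^ d / (Polynomial.aeval x₀ p / p0) with hw
    have h7 : 1 / R = p0 / w := by
      rw [h5]
      field_simp
    rw [h7, abs_div, abs_of_pos h6, ← mul_div_assoc, hsi]
  -- the point on the half-line
  set h0 : ℝ := |1 / R| with hh0def
  have hx' : 1 / (h0 + 1) ∈ Set.Ioo 0 (z1 s 1) := by
    have h5 : Js s < h0 := lt_of_le_of_lt (le_max_right _ _) (by linarith)
    refine ⟨by positivity, ?_⟩
    unfold z1
    refine one_div_lt_one_div_of_lt (by positivity) ?_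
    push_cast
    linarith
  obtain ⟨hy1, hy2, -⟩ := (hcur s 1 le_rfl).1 _ hx'
  set y₀ : ℝ := Yx s 1 (1 / (h0 + 1)) with hy₀
  have hy3 : hh s y₀ = h0 := by
    rw [hy2, one_div_one_div]
    push_cast
    ring
  have hy4 : max Y (Ys s) + 1 < y₀ := by
    by_contra hcon
    rw [not_lt] at hcon
    have h5 := hry3.monotoneOn (show y₀ ∈ Set.Ici (Ys s) from hy1.le)
      (show max Y (Ys s) + 1 ∈ Set.Ici (Ys s) from by
        have := le_max_right Y (Ys s)
        simp only [Set.mem_Ici]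
        linarith) hcon
    rw [hy3] at h5
    have h6 := le_max_left (hh s (max Y (Ys s) + 1)) (Js s)
    linarith
  refine ⟨x₀, ry s y₀, hx0, h1, h2, lt_of_lt_of_le h3 (min_le_left _ _), ?_, ?_⟩
  · have h5 : (ry s y₀).im = y₀ := by
      unfold ry
      simp
    rw [h5]
    have := le_max_left Y (Ys s)
    linarith
  · rw [hry1 y₀ hy1.le, hy3]
    have h5 : (((1 / R : ℝ)) : ℂ) = ((((si s : ℤ) : ℝ) * h0 : ℝ) : ℂ) := by rw [← hsign]
    push_cast at h5
    exact h5.symm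

lemma coeff0_aeval (p : Polynomial ℤ) : (p.map (Int.castRingHom ℂ)).coeff 0 = ((p.coeff 0 : ℤ) : ℂ) := by
  rw [Polynomial.coeff_map]
  rfl

lemma aeval_real (p : Polynomial ℤ) (x : ℝ) :
    Polynomial.aeval (x : ℂ) p = ((Polynomial.aeval x p : ℝ) : ℂ) := by
  have h := Polynomial.aeval_algebraMap_apply ℂ x p
  exact h

/-- **the three functions are independent near some small real points** -/
theorem ax_local {c d : ℕ} {p : Polynomial ℤ} (hc : 1 ≤ c) (hd : 1 ≤ d) (hp : p.coeff 0 ≠ 0) {ρ : ℝ} (hρ : 0 < ρ) :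
    ∃ x₀ : ℝ, 0 < x₀ ∧ x₀ < ρ ∧ (∀ i, AnalyticAt ℂ (yk c d p i) (x₀ : ℂ)) ∧
      Pool.Agent.Y124.LocInd (yk c d p) (x₀ : ℂ) := by
  classical
  obtain ⟨Y, hY, hanc⟩ := Pool.Agent.Y120.J.hanc
  obtain ⟨r1, hr1, a1⟩ := Pool.Agent.Y319.J.evc_an Pool.Agent.Y120.J.hsd.1
  obtain ⟨r2, hr2, a2⟩ := Pool.Agent.Y319.J.evc_an Pool.Agent.Y120.J.hsd.2
  obtain ⟨r3, hr3, a3⟩ := Pool.Agent.Y319.J.evc_an (f := F1) (Pool.Agent.Y167.K.SDc_hJ 2)
  set r : ℝ := min r1 (min r2 r3) with hr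
  have hr0 : 0 < r := lt_min hr1 (lt_min hr2 hr3)
  obtain ⟨x₀, z₀, hx0, hxρ, hpos, hRs, hz, hj⟩ := exists_point hc hd hp hρ hr0 Y
  have hp0 : ((p.coeff 0 : ℤ) : ℂ) ≠ 0 := by exact_mod_cast hp
  have hcC : (c : ℂ) ≠ 0 := by
    have : c ≠ 0 := by omega
    exact_mod_cast this
  have hxC : (x₀ : ℂ) ≠ 0 := by exact_mod_cast hx0.ne'
  have hpx : (Polynomial.aeval x₀ p : ℝ) ≠ 0 := by
    intro h
    rw [h, zero_div] at hpos
    exact lt_irrefl _ hpos
  have hpxC : Polynomial.aeval (x₀ : ℂ) p ≠ 0 := by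
    rw [aeval_real]
    exact_mod_cast hpx
  have hRreal : Rc c d p x₀ = (((c : ℝ) * x₀ ^ d / Polynomial.aeval x₀ p : ℝ) : ℂ) := by
    rw [Rc, aeval_real]
    push_cast
    rfl
  have hRan : ∀ z : ℂ, Polynomial.aeval z p ≠ 0 → AnalyticAt ℂ (Rc c d p) z := fun z hz =>
    (analyticAt_const.mul (analyticAt_id.pow d)).div (pan p z) hz
  have hR0 : Rc c d p x₀ ≠ 0 := div_ne_zero (mul_ne_zero hcC (pow_ne_zero _ hxC)) hpxC
  have hJan : AnalyticAt ℂ (fun x => 1 / Rc c d p x) x₀ := analyticAt_const.div (hRan _ hpxC) hR0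
  have hj' : jj z₀ = 1 / Rc c d p x₀ := by rw [hj, hRreal]
  have hz0 : 0 < z₀.im := by linarith
  obtain ⟨-, hdj, -⟩ := hanc z₀ hz.le
  obtain ⟨ψ, hψ1, hψ2, hψ3⟩ := local_inverse (Pool.Agent.TH21.MS.jj_an z₀ hz0) hdj
  rw [hj'] at hψ1 hψ2 hψ3
  set τ : ℂ → ℂ := fun x => ψ (1 / Rc c d p x) with hτ
  have hτan : AnalyticAt ℂ τ x₀ := AnalyticAt.fun_comp (g := ψ) (f := fun x => 1 / Rc c d p x) hψ1 hJan
  have hτ0 : τ x₀ = z₀ := hψ2
  have hcx : ContinuousAt (fun x : ℂ => x) (x₀ : ℂ) := continuousAt_id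
  -- the neighbourhood
  have n1 : ∀ᶠ z in 𝓝 (x₀ : ℂ), z ∈ Complex.slitPlane :=
    Complex.isOpen_slitPlane.mem_nhds (Complex.ofReal_mem_slitPlane.2 hx0)
  have n2 : ∀ᶠ z in 𝓝 (x₀ : ℂ), Polynomial.aeval z p ≠ 0 := (pan p x₀).continuousAt.eventually_ne hpxC
  have n3 : ∀ᶠ z in 𝓝 (x₀ : ℂ), Polynomial.aeval z p / ((p.coeff 0 : ℤ) : ℂ) ∈ Complex.slitPlane := by
    have h1 : ContinuousAt (fun z : ℂ => Polynomial.aeval z p / ((p.coeff 0 : ℤ) : ℂ)) x₀ :=
      (pan p x₀).continuousAt.div_const _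
    refine h1 (Complex.isOpen_slitPlane.mem_nhds ?_)
    show Polynomial.aeval (x₀ : ℂ) p / ((p.coeff 0 : ℤ) : ℂ) ∈ Complex.slitPlane
    have h2 : Polynomial.aeval (x₀ : ℂ) p / ((p.coeff 0 : ℤ) : ℂ) =
        ((Polynomial.aeval x₀ p / ((p.coeff 0 : ℤ) : ℝ) : ℝ) : ℂ) := by
      rw [aeval_real]
      push_cast
      rfl
    rw [h2]
    exact Complex.ofReal_mem_slitPlane.2 hpos
  have n4 : ∀ᶠ z in 𝓝 (x₀ : ℂ), Y < (τ z).im := by
    have h1 : ContinuousAt (fun z => (τ z).im) (x₀ : ℂ) := Complex.continuous_im.continuousAt.comp hτan.continuousAt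
    refine h1.eventually_const_lt ?_
    show Y < (τ (x₀ : ℂ)).im
    rw [hτ0]
    exact hz
  have n5 : ∀ᶠ z in 𝓝 (x₀ : ℂ), jj (τ z) = 1 / Rc c d p z := hJan.continuousAt.eventually hψ3
  have n6 : ∀ᶠ z in 𝓝 (x₀ : ℂ), AnalyticAt ℂ τ z := hτan.eventually_analyticAt
  have n7 : ∀ᶠ z in 𝓝 (x₀ : ℂ), ‖Rc c d p z‖ < r := by
    refine (hRan _ hpxC).continuousAt.norm.eventually_lt_const ?_
    show ‖Rc c d p (x₀ : ℂ)‖ < r
    rw [hRreal, Complex.norm_real]
    exact hRs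
  have n8 : ∀ᶠ z in 𝓝 (x₀ : ℂ), Rc c d p z ≠ 0 := (hRan _ hpxC).continuousAt.eventually_ne hR0
  obtain ⟨ε, hε, hball⟩ := Metric.eventually_nhds_iff_ball.1
    (n1.and (n2.and (n3.and (n4.and (n5.and (n6.and (n7.and n8)))))))
  set U : Set ℂ := Metric.ball (x₀ : ℂ) ε with hU
  have hx₀U : (x₀ : ℂ) ∈ U := Metric.mem_ball_self hε
  have hUinf : U.Infinite := infinite_of_mem_nhds (x₀ : ℂ) (Metric.ball_mem_nhds _ hε)
  have hnc : ∀ c' : ℂ, ∃ z ∈ U, τ z ≠ c' := by
    intro c'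
    by_contra hcon
    push Not at hcon
    set κ : ℂ := 1 / jj c' with hκ
    have h1 : ∀ z ∈ U, Rc c d p z = κ := by
      intro z hz'
      have h2 := (hball z hz').2.2.2.2.1
      rw [hcon z hz'] at h2
      rw [hκ, h2, one_div_one_div]
    have hκ0 : κ ≠ 0 := by
      rw [← h1 _ hx₀U]
      exact hR0
    have h3 : (Polynomial.C (c : ℂ) * Polynomial.X ^ d : Polynomial ℂ) =
        Polynomial.C κ * p.map (Int.castRingHom ℂ) := by
      refine Polynomial.eq_of_infinite_eval_eq _ _ (hUinf.mono fun z hz' => ?_)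
      have h4 := h1 z hz'
      have h5 := (hball z hz').2.1
      have h6 : Polynomial.eval z (p.map (Int.castRingHom ℂ)) = Polynomial.aeval z p := by
        rw [Polynomial.eval_map]
        rfl
      simp only [Set.mem_ofPred_eq, Polynomial.eval_mul, Polynomial.eval_C, Polynomial.eval_pow, Polynomial.eval_X]
      rw [h6, ← h4, Rc, div_mul_cancel₀ _ h5]
    have h7 := congrArg (fun q => Polynomial.coeff q 0) h3
    simp only [Polynomial.coeff_C_mul, Polynomial.coeff_X_pow] at h7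
    rw [if_neg (by omega), mul_zero, coeff0_aeval] at h7
    exact mul_ne_zero hκ0 hp0 h7.symm
  have hF : Fmj U (fun _ : Fin 1 => τ) (fun _ : Fin 1 => Complex.log) := by
    refine ⟨Metric.isOpen_ball, (convex_ball _ _).isPreconnected, ⟨_, hx₀U⟩, fun _ z hz' => (hball z hz').2.2.2.2.2.1,
      fun _ z hz' => ?_, fun _ => hnc, fun i k hik => absurd (Subsingleton.elim i k) hik,
      fun _ z hz' => ?_, fun m c' h => ?_⟩
    · have := (hball z hz').2.2.2.1
      linarith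
    · exact analyticAt_clog (hball z hz').1
    · funext k
      rw [Subsingleton.elim k 0]
      by_contra hm
      have hm' : ((m 0 : ℤ) : ℂ) ≠ 0 := by exact_mod_cast hm
      refine hUinf (Set.Finite.subset (Set.finite_singleton (Complex.exp (c' / m 0))) fun z hz' => ?_)
      have h1 := h z hz'
      rw [Fin.sum_univ_one] at h1
      have h2 : Complex.log z = c' / m 0 := by
        rw [← h1]
        field_simp
      rw [Set.mem_singleton_iff, ← h2, Complex.exp_log (Complex.slitPlane_ne_zero (hball z hz').1)]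
  have hyk : ∀ z ∈ U, ∀ i, AnalyticAt ℂ (yk c d p i) z := by
    intro z hz' i
    obtain ⟨b1, b2, b3, b4, b5, b6, b7, b8⟩ := hball z hz'
    have c1 : AnalyticAt ℂ (fun x => evc FF (Rc c d p x)) z :=
      AnalyticAt.fun_comp (g := evc FF) (f := Rc c d p) (a1 _ (b7.trans_le (min_le_left _ _))) (hRan z b2)
    have c2 : AnalyticAt ℂ (fun x => evc GG (Rc c d p x)) z :=
      AnalyticAt.fun_comp (g := evc GG) (f := Rc c d p)
        (a2 _ (b7.trans_le ((min_le_right _ _).trans (min_le_left _ _)))) (hRan z b2)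
    have c3 : AnalyticAt ℂ (fun x => evc F1 (Rc c d p x)) z :=
      AnalyticAt.fun_comp (g := evc F1) (f := Rc c d p)
        (a3 _ (b7.trans_le ((min_le_right _ _).trans (min_le_right _ _)))) (hRan z b2)
    have c4 : AnalyticAt ℂ (fun x : ℂ => Complex.log (Polynomial.aeval x p / ((p.coeff 0 : ℤ) : ℂ))) z :=
      ((pan p z).div_const (c := ((p.coeff 0 : ℤ) : ℂ))).clog b3
    fin_cases i
    · exact c1
    · exact c3
    · exact (c2.fun_sub (c1.fun_mul c4)).fun_neg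
  have hyo : ∀ k, AnalyticOnNhd ℂ (yo c d p k) U := by
    intro k z hz'
    rcases k with _ | k
    · exact analyticAt_id
    · show AnalyticAt ℂ ((Fin.snoc (yk c d p) Complex.log : Fin 4 → ℂ → ℂ) k) z
      refine Fin.lastCases ?_ (fun i => ?_) k
      · rw [Fin.snoc_last]
        exact analyticAt_clog (hball z hz').1
      · rw [Fin.snoc_castSucc]
        exact hyk z hz' i
  set G : Set ℂ := {tpi, Complex.log (c / ((p.coeff 0 : ℤ) : ℂ))} with hG
  have hGc : G.Countable := (Set.countable_singleton _).insert _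
  have htpi : tpi ≠ 0 := Pool.Agent.Y120.K.tpi_ne
  obtain ⟨e, he, hL⟩ := Pool.Agent.Y776.AxJ.exists_loc' hF one_pos (y := yo c d p) hyo hGc (by
    intro F hGF z hz' k
    obtain ⟨b1, b2, b3, b4, b5, b6, b7, b8⟩ := hball z hz'
    set K := clo F (Set.range fun k => yo c d p k z) with hK
    have mt : tpi ∈ K := base_clo (hGF (by simp [hG]))
    have mκ : Complex.log (c / ((p.coeff 0 : ℤ) : ℂ)) ∈ K := base_clo (hGF (by simp [hG]))
    have m0 : z ∈ K := subset_clo ⟨none, rfl⟩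
    have mlog : Complex.log z ∈ K := subset_clo ⟨some (Fin.last 3), by
      show (Fin.snoc (yk c d p) Complex.log : Fin 4 → ℂ → ℂ) (Fin.last 3) z = _
      rw [Fin.snoc_last]⟩
    have mk : ∀ i, yk c d p i z ∈ K := fun i => subset_clo ⟨some i.castSucc, by
      show (Fin.snoc (yk c d p) Complex.log : Fin 4 → ℂ → ℂ) i.castSucc z = _
      rw [Fin.snoc_castSucc]⟩
    have mF : evc FF (Rc c d p z) ∈ K := mk 0
    have mF1 : evc F1 (Rc c d p z) ∈ K := mk 1
    have mK := mk 2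
    have mR : Rc c d p z ∈ K := div_mem (mul_mem (natCast_mem K c) (pow_mem m0 d)) (aeval_mem m0 p)
    obtain ⟨i1, i2, i3, i4, i5, i6⟩ := hanc (τ z) b4.le
    rw [b5, one_div_one_div] at i3 i4 i5 i6
    have him : 0 < (τ z).im := by linarith
    have hz0' : z ≠ 0 := Complex.slitPlane_ne_zero b1
    have mτ : τ z ∈ K := by
      set L : ℂ := Complex.log (Polynomial.aeval z p / ((p.coeff 0 : ℤ) : ℂ)) with hLdef
      have h1 : Complex.exp (tpi * τ z - evc GG (Rc c d p z) / evc FF (Rc c d p z) - d * Complex.log z + L) =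
          Complex.exp (Complex.log (c / ((p.coeff 0 : ℤ) : ℂ))) := by
        rw [Complex.exp_log (div_ne_zero hcC hp0), Complex.exp_add, Complex.exp_sub, i6,
          Complex.exp_nat_mul, Complex.exp_log hz0', Complex.exp_log (div_ne_zero b2 hp0), Rc]
        field_simp
      obtain ⟨m, hm⟩ := Complex.exp_eq_exp_iff_exists_int.1 h1
      have h2 : yk c d p 2 z = -(evc GG (Rc c d p z) - evc FF (Rc c d p z) * L) := rfl
      have h3 : τ z = (Complex.log (c / ((p.coeff 0 : ℤ) : ℂ)) + m * tpi + d * Complex.log z -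
          yk c d p 2 z / evc FF (Rc c d p z)) / tpi := by
        rw [eq_div_iff htpi, h2]
        have h4 : -(evc GG (Rc c d p z) - evc FF (Rc c d p z) * L) / evc FF (Rc c d p z) =
            -(evc GG (Rc c d p z) / evc FF (Rc c d p z)) + L := by
          field_simp
          ring
        rw [h4]
        have h5 : (m : ℂ) * (2 * Real.pi * Complex.I) = m * tpi := rfl
        rw [h5] at hm
        linear_combination hm
      rw [h3]
      exact div_mem (sub_mem (add_mem (add_mem mκ (mul_mem (intCast_mem K m) mt))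
        (mul_mem (natCast_mem K d) mlog)) (div_mem mK mF)) mt
    rcases k with ⟨i, m⟩ | i | i
    · fin_cases m
      · exact mτ
      · show jf (τ z) ∈ K
        rw [jf_jj him, b5]
        exact div_mem (one_mem K) mR
      · show deriv jf (τ z) ∈ K
        rw [djf him, i4]
        exact mul_mem (mul_mem (neg_mem mt) (div_mem (one_mem K) mR)) (pow_mem mF 2)
      · show deriv (deriv jf) (τ z) ∈ K
        rw [ddjf him, i5]
        refine mul_mem (mul_mem (pow_mem mt 2) (div_mem (one_mem K) mR)) (sub_mem (pow_mem mF 4) ?_)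
        exact mul_mem (mul_mem (ofNat_mem K 2) (pow_mem mF 3)) mF1
    · exact mlog
    · show Complex.exp (Complex.log z) ∈ K
      rw [Complex.exp_log hz0']
      exact m0)
  -- the variable is not in the family
  have hnone : ∀ k, e k ≠ none := by
    intro k hk
    have h1 := hL _ hx₀U (MvPolynomial.X (some k) - MvPolynomial.X none) (by
      refine Filter.Eventually.of_forall fun t => ?_
      rw [map_sub, MvPolynomial.eval_X, MvPolynomial.eval_X]
      show yo c d p (e k) t - t = 0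
      rw [hk]
      exact sub_self t)
    rw [sub_eq_zero] at h1
    exact Option.some_ne_none k (MvPolynomial.X_injective h1)
  obtain ⟨e', he'⟩ : ∃ e' : Fin (3 * 1 + 1) → Fin 4, ∀ k, e k = some (e' k) :=
    ⟨fun k => (e k).get (Option.isSome_iff_ne_none.2 (hnone k)), fun k => (Option.some_get _).symm⟩
  have he'i : Function.Injective e' := fun a b hab => he (by rw [he', he', hab])
  have he's : Function.Surjective e' := Finite.surjective_of_injective he'i
  choose g hg using fun i : Fin 3 => he's i.castSucc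
  have hgi : Function.Injective g := fun a b hab => by
    have h1 := congrArg e' hab
    rw [hg, hg] at h1
    exact Fin.castSucc_injective _ h1
  have h1 := loc_comp g hgi (hL _ hx₀U)
  have h2 : (fun k => (fun k => yo c d p (e k)) (g k)) = yk c d p := by
    funext i
    show yo c d p (e (g i)) = _
    rw [he', hg]
    show (Fin.snoc (yk c d p) Complex.log : Fin 4 → ℂ → ℂ) i.castSucc = _
    rw [Fin.snoc_castSucc]
  rw [h2] at h1
  exact ⟨x₀, hx0, hxρ, hyk _ hx₀U, h1⟩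

end

end Pool.Agent.V5helper48.GP
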