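import Pool.Agent.V5helper48.GP.PQ
import Pool.Agent.V5helper48.GP.Ax

/-!
# Project GP, job AI: algebraic independence of the three canonical series
-/

set_option autoImplicit false

open PowerSeries Pool.Agent.Y113 Pool.Agent.Y120.J Pool.Agent.Y120.K
open Filter Topology

namespace Pool.Agent.V5helper48.GP

open Pool.Agent.V5helper46.GP

/-- evaluation of a polynomial in convergent series -/
lemma ev_aeval {σ : Type} {y : ℝ} (hy : 0 < y) {a : σ → ℚ⟦X⟧} (ha : ∀ o, Cv y (a o)) (P : MvPolynomial σ ℚ) :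
    Cv y (MvPolynomial.aeval a P) ∧
      ev y (MvPolynomial.aeval a P) = MvPolynomial.aeval (fun o => (ev y (a o) : ℝ)) P := by
  induction P using MvPolynomial.induction_on with
  | C r =>
    rw [MvPolynomial.aeval_C, MvPolynomial.aeval_C]
    have h : algebraMap ℚ ℚ⟦X⟧ r = PowerSeries.C r := by
      rw [PowerSeries.algebraMap_apply]
      rfl
    rw [h]
    exact ⟨Cv.C r, ev_C r⟩
  | add P Q hP hQ =>
    rw [map_add, map_add]
    exact ⟨Cv.add hy hP.1 hQ.1, by rw [Cv.ev_add hy hP.1 hQ.1, hP.2, hQ.2]⟩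
  | mul_X P i hP =>
    rw [map_mul, map_mul, MvPolynomial.aeval_X, MvPolynomial.aeval_X]
    exact ⟨Cv.mul hy hP.1 (ha i), by rw [Cv.ev_mul hy hP.1 (ha i), hP.2]⟩

lemma evc_E (f : ℚ⟦X⟧) (x : ℝ) : evc f (x : ℂ) = ((Pool.Agent.Y37.GF.E f x : ℝ) : ℂ) := by
  unfold evc Pool.Agent.Y37.GF.E
  rw [Complex.ofReal_tsum]
  refine tsum_congr fun m => ?_
  push_cast
  rfl

lemma Rc_real (c d : ℕ) (p : Polynomial ℤ) (x : ℝ) :
    Rc c d p (x : ℂ) = (((c : ℝ) * x ^ d / Polynomial.aeval x p : ℝ) : ℂ) := by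
  rw [Rc, aeval_real]
  push_cast
  rfl

/-- the functions at small real points -/
lemma yk_real (hev : S_EV) (hsc : S_SC) {c d : ℕ} {p : Polynomial ℤ} (hd : 1 ≤ d) (hp : p.coeff 0 ≠ 0) :
    ∃ ρ : ℝ, 0 < ρ ∧ ∀ x : ℝ, 0 < x → x < ρ → (∀ i, Cv (1 / x) (kP c d p i)) ∧
      ∀ i, yk c d p i (x : ℂ) = ((ev (1 / x) (kP c d p i) : ℝ) : ℂ) := by
  obtain ⟨C1, hC1, h1⟩ := hev c d p hd hp
  obtain ⟨C2, hC2, h2⟩ := ev_kP hsc (c := c) hd hp
  refine ⟨1 / max C1 C2, by positivity, fun x hx0 hx => ?_⟩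
  have hy : max C1 C2 ≤ 1 / x := by
    rw [lt_div_iff₀ (by positivity)] at hx
    rw [le_div_iff₀ hx0]
    linarith
  obtain ⟨a1, a2, a3⟩ := h1 (1 / x) ((le_max_left _ _).trans hy)
  obtain ⟨b0, b1, b2, b3⟩ := h2 (1 / x) ((le_max_right _ _).trans hy)
  rw [one_div_one_div] at a1 a2
  simp only [one_div_one_div] at a3
  have hv : ∀ i, ev (1 / x) (hR c d p i) =
      Pool.Agent.Y37.GF.E (hJ i) (c * x ^ d / Polynomial.aeval x p) := fun i => a3 i
  have hE : ∀ i, evc (hJ i) (Rc c d p (x : ℂ)) = ((ev (1 / x) (hR c d p i) : ℝ) : ℂ) := fun i => by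
    rw [Rc_real, evc_E, hv]
  refine ⟨b0, fun i => ?_⟩
  fin_cases i
  · show evc FF (Rc c d p (x : ℂ)) = ((ev (1 / x) (kP c d p 0) : ℝ) : ℂ)
    rw [b1]
    exact hE 0
  · show evc F1 (Rc c d p (x : ℂ)) = ((ev (1 / x) (kP c d p 1) : ℝ) : ℂ)
    rw [b2]
    exact hE 2
  · show -(evc GG (Rc c d p (x : ℂ)) - evc FF (Rc c d p (x : ℂ)) *
        Complex.log (Polynomial.aeval (x : ℂ) p / ((p.coeff 0 : ℤ) : ℂ))) = ((ev (1 / x) (kP c d p 2) : ℝ) : ℂ)
    have h3 : Complex.log (Polynomial.aeval (x : ℂ) p / ((p.coeff 0 : ℤ) : ℂ)) = ((ev (1 / x) (Lp p) : ℝ) : ℂ) := by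
      rw [a2, Complex.ofReal_log a1.le, aeval_real]
      push_cast
      rfl
    have e0 : evc FF (Rc c d p (x : ℂ)) = ((ev (1 / x) (hR c d p 0) : ℝ) : ℂ) := hE 0
    have e1 : evc GG (Rc c d p (x : ℂ)) = ((ev (1 / x) (hR c d p 1) : ℝ) : ℂ) := hE 1
    rw [b3, h3, e0, e1]
    push_cast
    rfl

/-- **Job AI.** -/
theorem t_AI (hev : S_EV) (hsc : S_SC) : S_AI := by
  intro c d p hc hd hp
  rw [algebraicIndependent_iff]
  intro Q hQ
  set P : MvPolynomial (Option (Fin 3)) ℚ := (MvPolynomial.optionEquivRight ℚ (Fin 3)).symm Q with hPdef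
  have hPQ : MvPolynomial.optionEquivRight ℚ (Fin 3) P = Q := AlgEquiv.apply_symm_apply _ _
  set a : Option (Fin 3) → ℚ⟦X⟧ := fun o => o.elim PowerSeries.X (kP c d p) with ha
  have hcomp : (MvPolynomial.aeval a : MvPolynomial (Option (Fin 3)) ℚ →ₐ[ℚ] ℚ⟦X⟧).toRingHom =
      ((MvPolynomial.aeval (kP c d p) : MvPolynomial (Fin 3) (Polynomial ℚ) →ₐ[Polynomial ℚ] ℚ⟦X⟧).toRingHom).comp
        ((MvPolynomial.optionEquivRight ℚ (Fin 3)).toAlgHom.toRingHom) := by
    have hal : ∀ q : Polynomial ℚ, algebraMap (Polynomial ℚ) ℚ⟦X⟧ q = (q : ℚ⟦X⟧) := fun q => by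
      rw [PowerSeries.algebraMap_apply']
      simp
    refine MvPolynomial.ringHom_ext (fun r => ?_) fun o => ?_
    · simp [hal]
    · rcases o with _ | i
      · simp [ha, hal]
      · simp [ha]
  have hP : MvPolynomial.aeval a P = 0 := by
    have h := RingHom.congr_fun hcomp P
    change MvPolynomial.aeval a P = MvPolynomial.aeval (kP c d p) (MvPolynomial.optionEquivRight ℚ (Fin 3) P) at h
    rw [h, hPQ, hQ]
  obtain ⟨ρ, hρ, hreal⟩ := yk_real hev hsc (c := c) hd hp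
  set Pc : MvPolynomial (Option (Fin 3)) ℂ := MvPolynomial.map (algebraMap ℚ ℂ) P with hPc
  -- the relation at real points
  have hrel : ∀ x : ℝ, 0 < x → x < ρ →
      MvPolynomial.eval (fun o : Option (Fin 3) => o.elim (x : ℂ) fun i => yk c d p i (x : ℂ)) Pc = 0 := by
    intro x hx0 hx
    obtain ⟨h1, h2⟩ := hreal x hx0 hx
    have hy : 0 < 1 / x := by positivity
    have hXe : ev (1 / x) (PowerSeries.X : ℚ⟦X⟧) = x := by
      have h3 := ev_coe (t := 1 / x) (Polynomial.X : Polynomial ℚ)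
      rw [Polynomial.coe_X, Polynomial.aeval_X, one_div_one_div] at h3
      exact h3
    have hXc : Cv (1 / x) (PowerSeries.X : ℚ⟦X⟧) := by
      have h3 := Cv.coe (t := 1 / x) (Polynomial.X : Polynomial ℚ)
      rwa [Polynomial.coe_X] at h3
    have h4 := (ev_aeval hy (a := a) (fun o => by
      rcases o with _ | i
      · exact hXc
      · exact h1 i) P).2
    rw [hP, ev_zero] at h4
    have h5 : (fun o : Option (Fin 3) => o.elim (x : ℂ) fun i => yk c d p i (x : ℂ)) =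
        fun o => algebraMap ℝ ℂ (ev (1 / x) (a o)) := by
      funext o
      rcases o with _ | i
      · show (x : ℂ) = ((ev (1 / x) (PowerSeries.X : ℚ⟦X⟧) : ℝ) : ℂ)
        rw [hXe]
      · exact h2 i
    rw [h5, hPc, MvPolynomial.eval_map]
    have h6 := congrArg (algebraMap ℝ ℂ) h4
    rw [map_zero, MvPolynomial.aeval_def, ← MvPolynomial.coe_eval₂Hom, ← RingHom.comp_apply,
      MvPolynomial.comp_eval₂Hom] at h6
    rw [MvPolynomial.coe_eval₂Hom] at h6
    rw [h6]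
    congr 1
  obtain ⟨x₀, hx0, hxρ, han, hloc⟩ := ax_local hc hd hp hρ
  have hfan : AnalyticAt ℂ (fun z : ℂ => MvPolynomial.eval
      (fun o : Option (Fin 3) => (fun (o : Option (Fin 3)) (z : ℂ) => o.elim z fun i => yk c d p i z) o z) Pc) x₀ :=
    Pool.Agent.Y776.Cv.an_eval (fun o => by
      rcases o with _ | i
      · exact analyticAt_id
      · exact han i) Pc
  have hfr : ∃ᶠ z in 𝓝[≠] (x₀ : ℂ), MvPolynomial.eval
      (fun o : Option (Fin 3) => (fun (o : Option (Fin 3)) (z : ℂ) => o.elim z fun i => yk c d p i z) o z) Pc = 0 := by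
    have ht : Tendsto (fun t : ℝ => (t : ℂ)) (𝓝[≠] x₀) (𝓝[≠] (x₀ : ℂ)) := by
      refine tendsto_nhdsWithin_iff.2 ⟨?_, ?_⟩
      · exact Complex.continuous_ofReal.continuousAt.tendsto.mono_left nhdsWithin_le_nhds
      · filter_upwards [self_mem_nhdsWithin] with t ht hcon
        exact ht (Complex.ofReal_injective hcon)
    refine ht.frequently (Eventually.frequently ?_)
    have h1 : ∀ᶠ t : ℝ in 𝓝 x₀, 0 < t ∧ t < ρ := (eventually_gt_nhds hx0).and (eventually_lt_nhds hxρ)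
    filter_upwards [h1.filter_mono nhdsWithin_le_nhds] with t ht using hrel t ht.1 ht.2
  have hPc0 : Pc = 0 := hloc Pc (hfan.frequently_zero_iff_eventually_zero.1 hfr)
  have hP0 : P = 0 := by
    refine MvPolynomial.map_injective _ (algebraMap ℚ ℂ).injective ?_
    rw [← hPc, hPc0, map_zero]
  rw [← hPQ, hP0, map_zero]

end Pool.Agent.V5helper48.GP
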