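import Pool.Agent.V5helper46.GP.Stm2

/-!
# Project GP, job PQ: the period functions at the point with `|j| = |P (y)|`
-/

set_option autoImplicit false

open PowerSeries Pool.Agent.Y113 Pool.Agent.Y120.J Pool.Agent.Y120.K Pool.Agent.Y120.R
open Filter Topology

namespace Pool.Agent.V5helper48.GP

open Pool.Agent.V5helper46.GP

/-- convergence of the series with `SDc` -/
lemma cv_of_SDc {f : ℚ⟦X⟧} (hf : SDc f) : ∃ C : ℝ, 0 < C ∧ ∀ y : ℝ, C ≤ y → Cv y f := by
  obtain ⟨n, hn⟩ := hf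
  refine ⟨(2 : ℝ) ^ n + 1, by positivity, fun y hy => ?_⟩
  have h2 : (0 : ℝ) < 2 ^ n := by positivity
  refine Cv.of_bound (A := (2 : ℝ) ^ n) (B := (2 : ℝ) ^ n) (by linarith) h2.le (by linarith) fun m => ?_
  have h := hn.1 m
  rwa [pow_succ, mul_comm] at h

lemma ev_neg' (t : ℝ) (f : ℚ⟦X⟧) : ev t (-f) = -ev t f := by
  unfold ev
  rw [← tsum_neg]
  refine tsum_congr fun m => ?_
  rw [map_neg]
  push_cast
  ring

lemma Cv_neg {t : ℝ} {f : ℚ⟦X⟧} (h : Cv t f) : Cv t (-f) := by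
  unfold Cv at h ⊢
  simpa only [map_neg, Rat.cast_neg, abs_neg] using h

lemma ev_sub' {t : ℝ} (ht : 0 < t) {f g : ℚ⟦X⟧} (hf : Cv t f) (hg : Cv t g) : ev t (f - g) = ev t f - ev t g := by
  rw [sub_eq_add_neg, Cv.ev_add ht hf (Cv_neg hg), ev_neg', sub_eq_add_neg]

lemma SDc_hR (hsc : S_SC) {c d : ℕ} {p : Polynomial ℤ} (hd : 1 ≤ d) (hp : p.coeff 0 ≠ 0) (i : Fin 4) :
    SDc (hR c d p i) := (hsc c d p hd hp).1 _ (Pool.Agent.Y167.K.SDc_hJ i)

/-- the values of the three series -/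
lemma ev_kP (hsc : S_SC) {c d : ℕ} {p : Polynomial ℤ} (hd : 1 ≤ d) (hp : p.coeff 0 ≠ 0) :
    ∃ C : ℝ, 0 < C ∧ ∀ y : ℝ, C ≤ y → (∀ i, Cv y (kP c d p i)) ∧ ev y (kP c d p 0) = ev y (hR c d p 0) ∧
      ev y (kP c d p 1) = ev y (hR c d p 2) ∧
      ev y (kP c d p 2) = -(ev y (hR c d p 1) - ev y (hR c d p 0) * ev y (Lp p)) := by
  obtain ⟨C0, hC0, h0⟩ := cv_of_SDc (SDc_hR hsc hd hp (c := c) 0)
  obtain ⟨C1, hC1, h1⟩ := cv_of_SDc (SDc_hR hsc hd hp (c := c) 1)
  obtain ⟨C2, hC2, h2⟩ := cv_of_SDc (SDc_hR hsc hd hp (c := c) 2)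
  obtain ⟨C3, hC3, h3⟩ := cv_of_SDc (hsc c d p hd hp).2
  refine ⟨max (max C0 C1) (max C2 C3), lt_max_of_lt_left (lt_max_of_lt_left hC0), fun y hy => ?_⟩
  have e0 := h0 y ((le_max_left _ _).trans ((le_max_left _ _).trans hy))
  have e1 := h1 y ((le_max_right _ _).trans ((le_max_left _ _).trans hy))
  have e2 := h2 y ((le_max_left _ _).trans ((le_max_right _ _).trans hy))
  have e3 := h3 y ((le_max_right _ _).trans ((le_max_right _ _).trans hy))
  have hy0 : 0 < y := hC0.trans_le ((le_max_left _ _).trans ((le_max_left _ _).trans hy))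
  have e03 : Cv y (hR c d p 0 * Lp p) := e0.mul hy0 e3
  have e103 : Cv y (hR c d p 1 - hR c d p 0 * Lp p) := by
    rw [sub_eq_add_neg]
    exact e1.add hy0 (Cv_neg e03)
  refine ⟨fun i => ?_, rfl, rfl, ?_⟩
  · fin_cases i
    · exact e0
    · exact e2
    · exact Cv_neg e103
  · show ev y (-(hR c d p 1 - hR c d p 0 * Lp p)) = _
    rw [ev_neg', ev_sub' hy0 e1 e03, Cv.ev_mul hy0 e0 e3]

lemma ev_hS (s : Bool) (r : ℝ) (i : Fin 4) :
    ev r (hS s i) = Pool.Agent.Y37.GF.E (hJ i) (((si s : ℤ) : ℝ) / r) := by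
  cases s
  · show ev r (PowerSeries.rescale (-1 : ℚ) (hJ i)) = _
    unfold ev Pool.Agent.Y37.GF.E
    refine tsum_congr fun m => ?_
    rw [PowerSeries.coeff_rescale]
    have h : (((si false : ℤ) : ℝ) / r) ^ m = (-1 : ℝ) ^ m * (1 / r) ^ m := by
      rw [← mul_pow]
      congr 1
      simp [si, neg_div]
    rw [h]
    push_cast
    ring
  · show ev r (hJ i) = _
    have h : ((si true : ℤ) : ℝ) / r = 1 / r := by simp [si]
    rw [h]
    rfl

theorem t_PQ (hev : S_EV) (hsc : S_SC) : S_PQ := by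
  intro c d p hc hd hp s hs
  obtain ⟨C1, hC1, h1⟩ := hev c d p hd hp
  obtain ⟨C2, hC2, h2⟩ := ev_kP hsc (c := c) hd hp
  refine ⟨max C1 C2, lt_max_of_lt_left hC1, fun y hy => ?_⟩
  obtain ⟨a1, a2, a3⟩ := h1 y ((le_max_left _ _).trans hy)
  obtain ⟨b0, b1, b2, b3⟩ := h2 y ((le_max_right _ _).trans hy)
  have hy0 : 0 < y := hC1.trans_le ((le_max_left _ _).trans hy)
  set q : ℝ := Polynomial.aeval (1 / y) p with hq
  set p0 : ℝ := ((p.coeff 0 : ℤ) : ℝ) with hp0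
  have hp0' : p0 ≠ 0 := by rw [hp0]; exact_mod_cast hp
  have hcr : (0 : ℝ) < c := by exact_mod_cast hc
  have hq0 : q ≠ 0 := by
    intro h
    rw [h, zero_div] at a1
    exact lt_irrefl _ a1
  have hyd : 0 < y ^ d := pow_pos hy0 d
  -- the sign
  have hsi : ((si s : ℤ) : ℝ) * |p0| = p0 := by
    cases s
    · have h : ¬ 0 < p.coeff 0 := fun h => Bool.false_ne_true (hs.2 h)
      have h' : p0 < 0 := by
        rw [hp0]
        exact_mod_cast lt_of_le_of_ne (not_lt.1 h) hp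
      rw [abs_of_neg h']
      simp [si]
    · have h' : 0 < p0 := by
        rw [hp0]
        exact_mod_cast hs.1 rfl
      rw [abs_of_pos h']
      simp [si]
  have hsi2 : ((si s : ℤ) : ℝ) * ((si s : ℤ) : ℝ) = 1 := by cases s <;> simp [si]
  have hqp : q = (q / p0) * p0 := by field_simp
  have hr : y ^ d * q / c = (y ^ d * (q / p0) / c) * p0 := by
    rw [hqp]
    field_simp
  have hrpos : 0 < y ^ d * (q / p0) / c := div_pos (mul_pos hyd a1) hcr
  have habs : |y ^ d * q / c| = (y ^ d * (q / p0) / c) * |p0| := by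
    rw [hr, abs_mul, abs_of_pos hrpos]
  have hsign : y ^ d * q / c = ((si s : ℤ) : ℝ) * |y ^ d * q / c| := by
    rw [habs, hr]
    linear_combination (-(y ^ d * (q / p0) / c)) * hsi
  refine ⟨hsign, ?_⟩
  set r : ℝ := |y ^ d * q / c| with hrdef
  have hr0 : 0 < r := abs_pos.2 (by positivity)
  have harg : ((si s : ℤ) : ℝ) / r = c * (1 / y) ^ d / q := by
    have h3 : r = ((si s : ℤ) : ℝ) * (y ^ d * q / c) := by
      linear_combination (-((si s : ℤ) : ℝ)) * hsign - r * hsi2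
    have h4 : ((si s : ℤ) : ℝ) ≠ 0 := by
      intro h
      rw [h, zero_mul] at hsi2
      exact zero_ne_one hsi2
    rw [h3, one_div_pow]
    field_simp
  have hv : ∀ i, ev r (hS s i) = ev y (hR c d p i) := by
    intro i
    rw [ev_hS, harg]
    exact (a3 i).symm
  set f : ℝ := ev y (hR c d p 0) with hf
  set G : ℝ := ev y (hR c d p 1) with hG
  set f1 : ℝ := ev y (hR c d p 2) with hf1
  set l : ℝ := ev y (Lp p) with hl
  have hlog : Real.log r = d * Real.log y + Real.log (|p0| / c) + l := by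
    have h3 : r = y ^ d * (|p0| / c) * (q / p0) := by
      rw [habs]
      ring
    rw [h3, Real.log_mul (by positivity) a1.ne', Real.log_mul hyd.ne' (by positivity), Real.log_pow, a2]
  have w0 : vP c d p y 0 = (f : ℂ) := by
    show ((ev y (kP c d p 0) : ℝ) : ℂ) = _
    rw [b1]
  have w1 : vP c d p y 1 = (f1 : ℂ) := by
    show ((ev y (kP c d p 1) : ℝ) : ℂ) = _
    rw [b2]
  have w2 : vP c d p y 2 = ((-(G - f * l) : ℝ) : ℂ) := by
    show ((ev y (kP c d p 2) : ℝ) : ℂ) = _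
    rw [b3]
  have a0 : MvPolynomial.aeval (p1 (hS s) r) (qJ 0) = tpi * ((f : ℂ) * f) := by
    show MvPolynomial.aeval _ (MvPolynomial.C tpi * (MvPolynomial.X (some 0) * MvPolynomial.X (some 0))) = _
    rw [map_mul, map_mul, MvPolynomial.aeval_X, MvPolynomial.aeval_C]
    show tpi * (((ev r (hS s 0) : ℝ) : ℂ) * ((ev r (hS s 0) : ℝ) : ℂ)) = _
    rw [hv]
  have a1' : MvPolynomial.aeval (p1 (hS s) r) (qJ 1) = (f : ℂ) * ((G : ℂ) - ((Real.log r : ℝ) : ℂ) * f) := by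
    show MvPolynomial.aeval _ (MvPolynomial.X (some 0) * (MvPolynomial.X (some 1) - MvPolynomial.X none * MvPolynomial.X (some 0))) = _
    rw [map_mul, map_sub, map_mul, MvPolynomial.aeval_X, MvPolynomial.aeval_X, MvPolynomial.aeval_X]
    show ((ev r (hS s 0) : ℝ) : ℂ) * (((ev r (hS s 1) : ℝ) : ℂ) - ((Real.log r : ℝ) : ℂ) * ((ev r (hS s 0) : ℝ) : ℂ)) = _
    rw [hv, hv]
  have a2' : MvPolynomial.aeval (p1 (hS s) r) (qJ 2) = tpi * ((f : ℂ) * f1) := by
    show MvPolynomial.aeval _ (MvPolynomial.C tpi * (MvPolynomial.X (some 0) * MvPolynomial.X (some 2))) = _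
    rw [map_mul, map_mul, MvPolynomial.aeval_X, MvPolynomial.aeval_X, MvPolynomial.aeval_C]
    show tpi * (((ev r (hS s 0) : ℝ) : ℂ) * ((ev r (hS s 2) : ℝ) : ℂ)) = _
    rw [hv, hv]
  have hlogC : ((Real.log r : ℝ) : ℂ) = (d : ℂ) * ((Real.log y : ℝ) : ℂ) + ((Real.log (|p0| / c) : ℝ) : ℂ) + (l : ℂ) := by
    rw [hlog]
    push_cast
    rfl
  funext j
  show MvPolynomial.aeval (p1 (hS s) r) (qS s j) = _
  cases s
  · fin_cases j
    · show MvPolynomial.aeval _ (qJ 0) = tpi * vP c d p y 0 ^ 2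
      rw [a0, w0]
      ring
    · show MvPolynomial.aeval _ (qJ 1 + MvPolynomial.C (1 / 2) * qJ 0) =
        vP c d p y 0 * (-vP c d p y 2 - ((d : ℂ) * ((Real.log y : ℝ) : ℂ) + ((Real.log (|p0| / c) : ℝ) : ℂ)) * vP c d p y 0) +
          (if false = true then 0 else 1 / 2) * (tpi * vP c d p y 0 ^ 2)
      have h2 : (algebraMap ℂ ℂ) (1 / 2) = 1 / 2 := rfl
      rw [map_add, map_mul, MvPolynomial.aeval_C, h2, a0, a1', w0, w2, hlogC, if_neg Bool.false_ne_true]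
      push_cast
      ring
    · show MvPolynomial.aeval _ (qJ 2) = tpi * (vP c d p y 0 * vP c d p y 1)
      rw [a2', w0, w1]
  · fin_cases j
    · show MvPolynomial.aeval _ (qJ 0) = tpi * vP c d p y 0 ^ 2
      rw [a0, w0]
      ring
    · show MvPolynomial.aeval _ (qJ 1) =
        vP c d p y 0 * (-vP c d p y 2 - ((d : ℂ) * ((Real.log y : ℝ) : ℂ) + ((Real.log (|p0| / c) : ℝ) : ℂ)) * vP c d p y 0) +
          (if true = true then 0 else 1 / 2) * (tpi * vP c d p y 0 ^ 2)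
      rw [a1', w0, w2, hlogC, if_pos rfl]
      push_cast
      ring
    · show MvPolynomial.aeval _ (qJ 2) = tpi * (vP c d p y 0 * vP c d p y 1)
      rw [a2', w0, w1]

end Pool.Agent.V5helper48.GP
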